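import Pool.Agent.HP778.Rank

/-!
# Products of spaces and the hyperplane property
-/

set_option autoImplicit false

namespace Pool.Agent.K6.H30.PS

open Module Finset Polynomial
open Pool.Agent.HP778

variable {k Ω : Type} [Field k] [Field Ω] [Algebra k Ω]

theorem Hyper.mono {V V' : Submodule k Ω} (hV : Hyper V) (h : V' ≤ V) : Hyper V' :=
  fun κ _ d x a hx ha hxa hcol => hV κ d x a hx (fun i j => h (ha i j)) hxa hcol

/-- the relations `∑ b i w i = 0` with `w i ∈ W` -/
def Rel {n : ℕ} (b : Fin n → Ω) (W : Submodule k Ω) : Submodule k (Fin n → Ω) where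
  carrier := {u | (∀ i, u i ∈ W) ∧ ∑ i, b i * u i = 0}
  add_mem' := by
    rintro u u' ⟨h1, h2⟩ ⟨h1', h2'⟩
    refine ⟨fun i => W.add_mem (h1 i) (h1' i), ?_⟩
    simp only [Pi.add_apply, mul_add, Finset.sum_add_distrib, h2, h2', add_zero]
  zero_mem' := ⟨fun _ => W.zero_mem, by simp⟩
  smul_mem' := by
    rintro a u ⟨h1, h2⟩
    refine ⟨fun i => W.smul_mem a (h1 i), ?_⟩
    simp only [Pi.smul_apply, mul_smul_comm]
    rw [← Finset.smul_sum, h2, smul_zero]

theorem mem_Rel {n : ℕ} {b : Fin n → Ω} {W : Submodule k Ω} {u : Fin n → Ω} :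
    u ∈ Rel b W ↔ (∀ i, u i ∈ W) ∧ ∑ i, b i * u i = 0 := Iff.rfl

theorem finrank_Rel {n : ℕ} (b : Fin n → Ω) (W C : Submodule k Ω) [FiniteDimensional k W]
    [FiniteDimensional k C] (hC : ∀ w ∈ W, ∀ i, b i * w ∈ C) :
    FiniteDimensional k (Rel b W) ∧ n * finrank k W ≤ finrank k C + finrank k (Rel b W) := by
  classical
  -- the space of all tuples
  let ι : (Fin n → W) →ₗ[k] (Fin n → Ω) :=
    LinearMap.pi fun i => W.subtype.comp (LinearMap.proj i)
  have hι : Function.Injective ι := by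
    intro u u' h
    funext i
    exact Subtype.ext (congrFun h i)
  let φ : (Fin n → Ω) →ₗ[k] Ω := ∑ i, (LinearMap.mulLeft k (b i)).comp (LinearMap.proj i)
  have hφ : ∀ u, φ u = ∑ i, b i * u i := by
    intro u
    simp only [φ, LinearMap.sum_apply, LinearMap.comp_apply, LinearMap.proj_apply,
      LinearMap.mulLeft_apply]
  have hmem : ∀ u, (φ.comp ι) u ∈ C := by
    intro u
    rw [LinearMap.comp_apply, hφ]
    exact Submodule.sum_mem _ fun i _ => hC _ (u i).2 i
  have h1 := LinearMap.finrank_range_add_finrank_ker ((φ.comp ι).codRestrict C hmem)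
  have h2 : finrank k (LinearMap.range ((φ.comp ι).codRestrict C hmem)) ≤ finrank k C :=
    Submodule.finrank_le _
  rw [LinearMap.ker_codRestrict, Module.finrank_pi_fintype, Finset.sum_const, Finset.card_univ,
    Fintype.card_fin, smul_eq_mul] at h1
  have h3 : (LinearMap.ker (φ.comp ι)).map ι = Rel b W := by
    ext u
    constructor
    · rintro ⟨v, hv, rfl⟩
      rw [SetLike.mem_coe, LinearMap.mem_ker, LinearMap.comp_apply, hφ] at hv
      exact ⟨fun i => (v i).2, hv⟩
    · rintro ⟨hu1, hu2⟩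
      refine ⟨fun i => ⟨u i, hu1 i⟩, ?_, rfl⟩
      rw [SetLike.mem_coe, LinearMap.mem_ker, LinearMap.comp_apply, hφ]
      exact hu2
  have h4 : finrank k (Rel b W) = finrank k (LinearMap.ker (φ.comp ι)) := by
    rw [← h3]
    exact (Submodule.equivMapOfInjective ι hι _).finrank_eq.symm
  refine ⟨?_, by omega⟩
  rw [← h3]
  infer_instance

/-- **Products of spaces.** The elements `w` of `W` are sums `∑ f j * v j` with `v j ∈ V`, the
products `b i * f j` are linearly independent and `b i * w ∈ C`. Then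
`n dim W ≤ dim C + n m (n m - 1)`. -/
theorem prod_space {V : Submodule k Ω} (hV : Hyper V) {n m : ℕ} (b : Fin n → Ω) (f : Fin m → Ω)
    (hbf : LinearIndependent k (fun p : Fin n × Fin m => b p.1 * f p.2))
    (W C : Submodule k Ω) [FiniteDimensional k W] [FiniteDimensional k C]
    (hW : ∀ w ∈ W, ∃ v : Fin m → Ω, (∀ j, v j ∈ V) ∧ w = ∑ j, f j * v j)
    (hC : ∀ w ∈ W, ∀ i, b i * w ∈ C) :
    n * finrank k W ≤ finrank k C + (n * m) * (n * m - 1) := by
  classical
  obtain ⟨hfd, hdim⟩ := finrank_Rel b W C hC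
  let e := Module.finBasis k (Rel b W)
  choose v hvV hv using fun (j : Fin (finrank k (Rel b W))) (i : Fin n) =>
    hW _ ((mem_Rel.mp (e j).2).1 i)
  let x : Fin (n * m) → Ω := fun q => b (finProdFinEquiv.symm q).1 * f (finProdFinEquiv.symm q).2
  have hx : LinearIndependent k x := hbf.comp _ finProdFinEquiv.symm.injective
  have hfin := hV (Fin (finrank k (Rel b W))) (n * m) x
    (fun q j => v j (finProdFinEquiv.symm q).1 (finProdFinEquiv.symm q).2) hx
    (fun q j => hvV j _ _) ?_ ?_
  · rw [Fintype.card_fin] at hfin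
    omega
  · intro j
    rw [← Equiv.sum_comp finProdFinEquiv]
    simp only [x, Equiv.symm_apply_apply]
    rw [Fintype.sum_prod_type]
    rw [← (mem_Rel.mp (e j).2).2]
    refine Finset.sum_congr rfl fun i _ => ?_
    rw [hv j i, Finset.mul_sum]
    refine Finset.sum_congr rfl fun l _ => ?_
    ring
  · -- independence of the columns
    let T : (Fin (n * m) → Ω) →ₗ[k] (Fin n → Ω) :=
      LinearMap.pi fun i => ∑ l, (LinearMap.mulLeft k (f l)).comp
        (LinearMap.proj (finProdFinEquiv (i, l)))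
    have hTa : ∀ z i, T z i = ∑ l, f l * z (finProdFinEquiv (i, l)) := by
      intro z i
      simp only [T, LinearMap.pi_apply, LinearMap.sum_apply, LinearMap.comp_apply,
        LinearMap.proj_apply, LinearMap.mulLeft_apply]
    apply LinearIndependent.of_comp T
    have hT : (T ∘ fun (j : Fin (finrank k (Rel b W))) (q : Fin (n * m)) =>
        v j (finProdFinEquiv.symm q).1 (finProdFinEquiv.symm q).2) =
        fun j => ((e j : Rel b W) : Fin n → Ω) := by
      funext j i
      rw [Function.comp_apply, hTa, hv j i]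
      refine Finset.sum_congr rfl fun l _ => ?_
      rw [Equiv.symm_apply_apply]
    rw [hT]
    exact e.linearIndependent.map' (Rel b W).subtype (Rel b W).ker_subtype

/-- the space `∑ f j V` -/
def comb {m : ℕ} (f : Fin m → Ω) (V : Submodule k Ω) : Submodule k Ω where
  carrier := {w | ∃ v : Fin m → Ω, (∀ j, v j ∈ V) ∧ w = ∑ j, f j * v j}
  add_mem' := by
    rintro a b ⟨v, hv, rfl⟩ ⟨v', hv', rfl⟩
    refine ⟨fun j => v j + v' j, fun j => V.add_mem (hv j) (hv' j), ?_⟩
    simp only [mul_add, Finset.sum_add_distrib]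
  zero_mem' := ⟨fun _ => 0, fun _ => V.zero_mem, by simp⟩
  smul_mem' := by
    rintro a b ⟨v, hv, rfl⟩
    refine ⟨fun j => a • v j, fun j => V.smul_mem a (hv j), ?_⟩
    rw [Finset.smul_sum]
    exact Finset.sum_congr rfl fun j _ => (mul_smul_comm _ _ _).symm

theorem mem_comb {m : ℕ} {f : Fin m → Ω} {V : Submodule k Ω} {w : Ω} :
    w ∈ comb f V ↔ ∃ v : Fin m → Ω, (∀ j, v j ∈ V) ∧ w = ∑ j, f j * v j := Iff.rfl

end Pool.Agent.K6.H30.PS
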