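import Mathlib

/-!
# Dilations: the products `t ^ (L j) f i` are independent for some `L`
-/

set_option autoImplicit false

namespace Pool.Agent.K6.H30.PS

open Module Finset Polynomial

theorem blocks {k : Type} [Field k] {L : ℕ} {n : ℕ} (q : Fin n → k[X])
    (hq : ∀ j, (q j).natDegree < L) (h : ∑ j : Fin n, X ^ (L * (j : ℕ)) * q j = 0) (j : Fin n) :
    q j = 0 := by
  classical
  ext s
  rw [coeff_zero]
  by_cases hs : L ≤ s
  · exact coeff_eq_zero_of_natDegree_lt (lt_of_lt_of_le (hq j) hs)
  · rw [not_le] at hs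
    have h1 := congrArg (fun P : k[X] => P.coeff (L * (j : ℕ) + s)) h
    simp only [finsetSum_coeff, coeff_zero] at h1
    rw [Finset.sum_eq_single j] at h1
    · rw [coeff_X_pow_mul', if_pos (Nat.le_add_right _ _), Nat.add_sub_cancel_left] at h1
      exact h1
    · intro j' _ hjj'
      rw [coeff_X_pow_mul']
      split_ifs with hle
      · have hlt : (j' : ℕ) < j ∨ (j : ℕ) < j' := by
          rcases Nat.lt_trichotomy (j' : ℕ) j with h | h | h
          · exact Or.inl h
          · exact absurd (Fin.ext h) hjj'
          · exact Or.inr h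
        rcases hlt with hlt | hlt
        · apply coeff_eq_zero_of_natDegree_lt
          have h2 : L * ((j' : ℕ) + 1) ≤ L * (j : ℕ) := Nat.mul_le_mul_left _ hlt
          have h3 := hq j'
          rw [Nat.mul_add, Nat.mul_one] at h2
          omega
        · exfalso
          have h2 : L * ((j : ℕ) + 1) ≤ L * (j' : ℕ) := Nat.mul_le_mul_left _ hlt
          rw [Nat.mul_add, Nat.mul_one] at h2
          omega
      · rfl
    · intro hj
      exact absurd (Finset.mem_univ _) hj

theorem exists_dilation {k Ω : Type} [Field k] [Field Ω] [Algebra k Ω] {t : Ω}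
    (ht : Transcendental k t) {m : ℕ} (f : Fin m → Ω)
    (hf : LinearIndependent k f) : ∃ L : ℕ, 1 ≤ L ∧ ∀ n : ℕ,
      LinearIndependent k (fun p : Fin n × Fin m => t ^ (L * (p.1 : ℕ)) * f p.2) := by
  classical
  letI : Module k[X] Ω := Module.compHom Ω (aeval t : k[X] →ₐ[k] Ω).toRingHom
  have hsm : ∀ (P : k[X]) (x : Ω), P • x = aeval t P * x := fun P x => rfl
  have hinj := transcendental_iff_injective.mp ht
  let M := Submodule.span k[X] (Set.range f)
  haveI hfin : Module.Finite k[X] M := Module.Finite.span_of_finite _ (Set.finite_range f)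
  haveI htf : Module.IsTorsionFree k[X] Ω := by
    apply Module.IsTorsionFree.mk
    intro P hP x y hxy
    change P • x = P • y at hxy
    rw [hsm, hsm] at hxy
    refine mul_left_cancel₀ ?_ hxy
    intro h0
    rw [← map_zero (aeval t : k[X] →ₐ[k] Ω)] at h0
    exact hP.ne_zero (hinj h0)
  haveI : Module.Free k[X] M := Module.free_of_finite_type_torsion_free'
  let g := Module.Free.chooseBasis k[X] M
  haveI : Fintype (Module.Free.ChooseBasisIndex k[X] M) := inferInstance
  let f' : Fin m → M := fun i => ⟨f i, Submodule.subset_span ⟨i, rfl⟩⟩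
  let L := 1 + ∑ i : Fin m, ∑ l, (g.repr (f' i) l).natDegree
  refine ⟨L, Nat.le_add_right _ _, fun n => ?_⟩
  have hL : ∀ i l, (g.repr (f' i) l).natDegree < L := by
    intro i l
    have h1 : (g.repr (f' i) l).natDegree ≤ ∑ l, (g.repr (f' i) l).natDegree :=
      Finset.single_le_sum (f := fun l => (g.repr (f' i) l).natDegree) (fun _ _ => Nat.zero_le _)
        (Finset.mem_univ l)
    have h2 : ∑ l, (g.repr (f' i) l).natDegree ≤ ∑ i : Fin m, ∑ l, (g.repr (f' i) l).natDegree :=
      Finset.single_le_sum (f := fun i => ∑ l, (g.repr (f' i) l).natDegree)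
        (fun _ _ => Nat.zero_le _) (Finset.mem_univ i)
    omega
  rw [Fintype.linearIndependent_iff]
  intro c hc
  -- the relation in `M`
  have h1 : ∑ p : Fin n × Fin m, (C (c p) * X ^ (L * (p.1 : ℕ)) : k[X]) • f' p.2 = 0 := by
    apply Subtype.ext
    rw [Submodule.coe_sum, Submodule.coe_zero, ← hc]
    refine Finset.sum_congr rfl fun p _ => ?_
    rw [Submodule.coe_smul]
    change (C (c p) * X ^ (L * (p.1 : ℕ)) : k[X]) • f p.2 = _
    rw [hsm, map_mul, aeval_C, map_pow, aeval_X, Algebra.smul_def, mul_assoc]
  have h2 : ∀ l (j : Fin n), ∑ i, C (c (j, i)) * g.repr (f' i) l = 0 := by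
    intro l
    apply blocks (L := L)
    · intro j
      have : (∑ i, C (c (j, i)) * g.repr (f' i) l).natDegree ≤ L - 1 := by
        apply natDegree_sum_le_of_forall_le
        intro i _
        have := natDegree_C_mul_le (c (j, i)) (g.repr (f' i) l)
        have := hL i l
        omega
      omega
    · have h3 := congrArg (fun x : M => g.repr x l) h1
      simp only [map_sum, map_smul, Finsupp.coe_finsetSum, Finset.sum_apply, Finsupp.smul_apply,
        smul_eq_mul, map_zero, Finsupp.coe_zero, Pi.zero_apply] at h3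
      rw [Fintype.sum_prod_type] at h3
      rw [← h3]
      refine Finset.sum_congr rfl fun j _ => ?_
      rw [Finset.mul_sum]
      refine Finset.sum_congr rfl fun i _ => ?_
      ring
  intro p
  have h4 : ∑ i, c (p.1, i) • f i = 0 := by
    have h5 : ∑ i, (C (c (p.1, i)) : k[X]) • f' i = 0 := by
      apply g.repr.injective
      rw [map_zero]
      ext1 l
      simp only [map_sum, map_smul, Finsupp.coe_finsetSum, Finset.sum_apply, Finsupp.smul_apply,
        smul_eq_mul, Finsupp.coe_zero, Pi.zero_apply]
      exact h2 l p.1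
    have h6 := congrArg (fun x : M => (x : Ω)) h5
    simp only [Submodule.coe_sum, Submodule.coe_smul, Submodule.coe_zero] at h6
    rw [← h6]
    refine Finset.sum_congr rfl fun i _ => ?_
    change _ = (C (c (p.1, i)) : k[X]) • f i
    rw [hsm, aeval_C, Algebra.smul_def]
  exact Fintype.linearIndependent_iff.mp hf _ h4 p.2

end Pool.Agent.K6.H30.PS
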