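import Pool.Agent.K6.H30.PS.Main

/-!
# Powers with polynomial exponents, and with exponents in a multiplicative family
-/

set_option autoImplicit false

namespace Pool.Agent.K6.H30.PS

open Module Finset Polynomial
open Pool.Agent.HP778 Pool.Agent.HP778.KZ
open Pool.Agent.H301R2.SSE (QB mem_QB Lt)
open scoped Pointwise

section gen

variable {k Ω : Type} [Field k] [Field Ω] [Algebra k Ω]

theorem finrank_map_inj {M N : Type} [AddCommGroup M] [Module k M] [AddCommGroup N] [Module k N]
    {f : M →ₗ[k] N} (hf : Function.Injective f) (p : Submodule k M) :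
    finrank k (p.map f) = finrank k p :=
  (Submodule.equivMapOfInjective f hf p).finrank_eq.symm

/-- sumsets -/
theorem sumset_gen {V : Submodule k Ω} (hV : Hyper V) {Γ : Type} [AddCommGroup Γ] [DecidableEq Γ]
    (χ : Γ → Ω) (hχ : ∀ a b, χ (a + b) = χ a * χ b) (y : Ω) (hy : y ≠ 0)
    (A B : Finset Γ) (hA : LinearIndependent k (fun a : A => χ a))
    (hB : LinearIndependent k (fun b : B => χ b)) (h : ∀ a ∈ A, y * χ a ∈ V) :
    B.card * A.card ≤ (A + B).card + B.card * (B.card - 1) := by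
  classical
  let W : Submodule k Ω := Submodule.span k (Set.range fun α : A => y * χ α)
  let C : Submodule k Ω := Submodule.span k
    (((A + B).image fun γ => y * χ γ : Finset Ω) : Set Ω)
  have : FiniteDimensional k W := FiniteDimensional.span_of_finite _ (Set.finite_range _)
  have : FiniteDimensional k C := FiniteDimensional.span_of_finite _ (Finset.finite_toSet _)
  have hAy : LinearIndependent k (fun a : A => y * χ a) := by
    have h1 := hA.map' (LinearMap.mulLeft k y) (by
      rw [LinearMap.ker_eq_bot]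
      intro a b hab
      exact mul_left_cancel₀ hy hab)
    exact h1
  have hW : finrank k W = A.card := by
    rw [finrank_span_eq_card hAy, Fintype.card_coe]
  have hC : finrank k C ≤ (A + B).card :=
    (finrank_span_finset_le_card _).trans Finset.card_image_le
  let e := B.equivFin
  have hprod := prod_space hV (fun i : Fin B.card => χ (e.symm i))
    (fun _ : Fin 1 => (1 : Ω)) ?_ W C ?_ ?_
  · rw [hW, mul_one] at hprod
    omega
  · have h1 : LinearIndependent k (fun p : Fin B.card × Fin 1 => χ (e.symm p.1)) :=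
      hB.comp (fun p : Fin B.card × Fin 1 => e.symm p.1) (by
        intro p q hpq
        have := e.symm.injective hpq
        exact Prod.ext this (Subsingleton.elim _ _))
    have h2 : (fun p : Fin B.card × Fin 1 => χ (e.symm p.1) * (1 : Ω)) =
        fun p : Fin B.card × Fin 1 => χ (e.symm p.1) := by
      funext p
      rw [mul_one]
    rw [h2]
    exact h1
  · intro w hw
    refine ⟨fun _ => w, fun _ => ?_, by simp⟩
    refine (Submodule.span_le.mpr ?_ : W ≤ V) hw
    rintro _ ⟨α, rfl⟩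
    exact h α α.2
  · intro w hw i
    have : W ≤ C.comap (LinearMap.mulLeft k (χ (e.symm i))) := by
      rw [Submodule.span_le]
      rintro _ ⟨α, rfl⟩
      change χ (e.symm i) * (y * χ α) ∈ C
      apply Submodule.subset_span
      rw [Finset.mem_coe, Finset.mem_image]
      refine ⟨α + e.symm i, Finset.add_mem_add α.2 (e.symm i).2, ?_⟩
      rw [hχ]; ring
    exact this hw

/-- the multipliers `x` in `A` with `x * y ∈ V` -/
def mulIn (A V : Submodule k Ω) (y : Ω) : Submodule k Ω := A ⊓ V.comap (LinearMap.mulLeft k y)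

theorem mem_mulIn {A V : Submodule k Ω} {y x : Ω} : x ∈ mulIn A V y ↔ x ∈ A ∧ y * x ∈ V := Iff.rfl

instance (A V : Submodule k Ω) (y : Ω) [FiniteDimensional k A] :
    FiniteDimensional k (mulIn A V y) := by
  unfold mulIn
  exact Submodule.finiteDimensional_inf_left _ _

/-- polynomials `x` in `t` with `y x ∈ F V`; the constant `L` does not depend on `y` -/
theorem poly_mul_bound {V : Submodule k Ω} (hV : Hyper V) {t : Ω} (ht : Transcendental k t)
    (F : Submodule k Ω) [FiniteDimensional k F] : ∃ L : ℕ, ∀ y : Ω, y ≠ 0 → ∀ N n : ℕ, 1 ≤ n →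
      n * finrank k (mulIn (PV k t (N + 1)) (F * V) y) ≤
        (N + 1 + L * n) + (n * finrank k F) * (n * finrank k F - 1) := by
  classical
  let b := Module.finBasis k F
  have hb : LinearIndependent k (fun j => ((b j : F) : Ω)) :=
    b.linearIndependent.map' F.subtype F.ker_subtype
  obtain ⟨L, hL, hind⟩ := exists_dilation ht _ hb
  refine ⟨L, fun y hy N n hn => ?_⟩
  have hyinj : Function.Injective (LinearMap.mulLeft k y) := fun a b hab => mul_left_cancel₀ hy hab
  have h := prod_space hV (fun i : Fin n => t ^ (L * (i : ℕ))) (fun j => ((b j : F) : Ω)) (hind n)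
    ((mulIn (PV k t (N + 1)) (F * V) y).map (LinearMap.mulLeft k y))
    ((PV k t (N + 1 + L * n)).map (LinearMap.mulLeft k y)) ?_ ?_
  · rw [finrank_map_inj hyinj, finrank_map_inj hyinj, finrank_PV ht] at h
    exact h
  · rintro _ ⟨w, hw, rfl⟩
    exact comb_le b hw.2
  · rintro _ ⟨w, hw, rfl⟩ i
    have h1 : t ^ (L * (i : ℕ)) ∈ PV k t (L * n) := by
      rw [show t ^ (L * (i : ℕ)) = aeval t (X ^ (L * (i : ℕ)) : k[X]) by
        rw [map_pow, aeval_X]]
      apply aeval_mem_PV
      rw [natDegree_X_pow]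
      exact Nat.mul_lt_mul_of_pos_left i.2 (by omega)
    refine ⟨t ^ (L * (i : ℕ)) * w, PV_mul (by omega) h1 hw.1, ?_⟩
    simp only [LinearMap.mulLeft_apply]
    ring

end gen

/-- the optimal choice of `n` -/
theorem opt_bound {f L N w : ℕ}
    (hL : ∀ n : ℕ, 1 ≤ n → n * w ≤ (N + 1 + L * n) + (n * f) * (n * f - 1)) :
    (w : ℝ) ≤ 2 * f * Real.sqrt N + ((L + f * f + 2 : ℕ) : ℝ) := by
  rcases Nat.eq_zero_or_pos f with hf0 | hf0
  · have h1 := hL (N + 1) (by omega)
    rw [hf0] at h1
    have h2 : (N + 1) * w ≤ (N + 1) * (1 + L) := by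
      calc (N + 1) * w ≤ _ := h1
        _ = (N + 1) * (1 + L) := by ring_nf
    have h3 : w ≤ 1 + L := Nat.le_of_mul_le_mul_left h2 (by omega)
    have h4 : (w : ℝ) ≤ 1 + L := by exact_mod_cast h3
    rw [hf0]
    push_cast
    nlinarith
  · have hs0 : 0 ≤ Real.sqrt N := Real.sqrt_nonneg _
    have hfR : (1 : ℝ) ≤ f := by exact_mod_cast hf0
    set n := ⌊Real.sqrt N / f⌋₊ + 1 with hn
    have hn1 : (n : ℝ) ≤ Real.sqrt N / f + 1 := by
      rw [hn]; push_cast
      have := Nat.floor_le (div_nonneg hs0 (by linarith : (0 : ℝ) ≤ f))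
      linarith
    have hn2 : Real.sqrt N / f < n := by
      rw [hn]; push_cast
      exact Nat.lt_floor_add_one _
    have hnpos : 1 ≤ n := by omega
    have hnR : (1 : ℝ) ≤ n := by exact_mod_cast hnpos
    have h2 := hL n hnpos
    have h3 : n * w ≤ (N + 1 + L * n) + (n * f) * (n * f) :=
      h2.trans (Nat.add_le_add_left (Nat.mul_le_mul_left _ (Nat.sub_le _ _)) _)
    have h4 : (n : ℝ) * w ≤ (N + 1 + L * n) + (n * f) * (n * f) := by exact_mod_cast h3
    have hN : (N : ℝ) = Real.sqrt N * Real.sqrt N := (Real.mul_self_sqrt (Nat.cast_nonneg N)).symm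
    have h5 : (N : ℝ) ≤ n * (f * Real.sqrt N) := by
      rw [div_lt_iff₀ (by linarith)] at hn2
      nlinarith
    have h6 : (n : ℝ) * f ≤ Real.sqrt N + f := by
      have := mul_le_mul_of_nonneg_right hn1 (by linarith : (0 : ℝ) ≤ f)
      rwa [add_mul, div_mul_cancel₀ _ (by linarith : (f : ℝ) ≠ 0), one_mul] at this
    have h7 : (n : ℝ) * w ≤ n * (2 * f * Real.sqrt N + (L + f * f + 2)) := by
      have h8 : ((n : ℝ) * f) * (n * f) ≤ n * (f * (Real.sqrt N + f)) := by
        have := mul_le_mul_of_nonneg_left h6 (by positivity : (0 : ℝ) ≤ (n : ℝ) * f)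
        linarith
      nlinarith
    have h9 := le_of_mul_le_mul_left h7 (by linarith)
    push_cast
    linarith

/-- multipliers which are polynomials in a transcendental number -/
theorem mult_bound {V : Submodule (algebraicClosure ℚ ℂ) ℂ}
    (hV : Hyper (k := QB) (Ω := ℂ) V) {t : ℂ} (ht : Transcendental ℚ t)
    (F : Submodule (algebraicClosure ℚ ℂ) ℂ) [FiniteDimensional (algebraicClosure ℚ ℂ) F] :
    ∃ C : ℕ, ∀ y : ℂ, y ≠ 0 → ∀ N : ℕ,
      (finrank (algebraicClosure ℚ ℂ) (mulIn (polys t N) (F * V) y) : ℝ) ≤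
        2 * finrank (algebraicClosure ℚ ℂ) F * Real.sqrt N + C := by
  obtain ⟨L, hL⟩ := poly_mul_bound hV (tr_QB ht) F
  refine ⟨L + finrank (algebraicClosure ℚ ℂ) F * finrank (algebraicClosure ℚ ℂ) F + 2,
    fun y hy N => ?_⟩
  apply opt_bound
  intro n hn
  refine le_trans (Nat.mul_le_mul_left _ ?_) (hL y hy N n hn)
  exact Submodule.finrank_mono (inf_le_inf_right _ (polys_le t N))

/-- rational powers of a positive transcendental number are independent -/
theorem rpow_indep {t : ℝ} (ht0 : 0 < t) (ht : Transcendental ℚ t) (A : Finset ℚ) :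
    LinearIndependent QB (fun q : A => ((t ^ ((q : ℚ) : ℝ) : ℝ) : ℂ)) := by
  classical
  -- a common denominator
  let D : ℕ := ∏ q ∈ A, q.den
  have hD : 0 < D := Finset.prod_pos fun q _ => q.den_pos
  have hDR : (0 : ℝ) < D := by exact_mod_cast hD
  have hdvd : ∀ q ∈ A, ∃ a : ℤ, (q : ℚ) = a / D := by
    intro q hq
    obtain ⟨c, hc⟩ : q.den ∣ D := Finset.dvd_prod_of_mem _ hq
    refine ⟨q.num * c, ?_⟩
    have h1 : (q.den : ℚ) ≠ 0 := by exact_mod_cast q.den_pos.ne'
    have h2 : (c : ℚ) ≠ 0 := by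
      intro h0
      have : c = 0 := by exact_mod_cast h0
      rw [this, Nat.mul_zero] at hc
      omega
    rw [hc]
    push_cast
    rw [mul_div_mul_right _ _ h2]
    exact (Rat.num_div_den q).symm
  choose! a ha using hdvd
  -- nonnegative exponents
  let M : ℕ := ∑ q ∈ A, (a q).natAbs
  have hM : ∀ q ∈ A, 0 ≤ a q + M := by
    intro q hq
    have h1 : (a q).natAbs ≤ M := Finset.single_le_sum (f := fun q => (a q).natAbs)
      (fun _ _ => Nat.zero_le _) hq
    omega
  let s : ℝ := t ^ ((D : ℝ)⁻¹)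
  have hs0 : 0 < s := Real.rpow_pos_of_pos ht0 _
  have hsD : s ^ D = t := by
    simp only [s]
    rw [← Real.rpow_natCast, ← Real.rpow_mul ht0.le, inv_mul_cancel₀ hDR.ne', Real.rpow_one]
  have hs : Transcendental ℚ s := by
    intro h
    exact ht (hsD ▸ h.pow D)
  have hsC : Transcendental QB ((s : ℝ) : ℂ) := tr_QB (ofReal_transcendental hs)
  have hpow : ∀ q ∈ A, t ^ ((q : ℚ) : ℝ) * s ^ M = s ^ (a q + M).toNat := by
    intro q hq
    have h1 : ((q : ℚ) : ℝ) = (D : ℝ)⁻¹ * (a q : ℤ) := by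
      have h2 := congrArg (fun x : ℚ => (x : ℝ)) (ha q hq)
      simp only [Rat.cast_div, Rat.cast_intCast, Rat.cast_natCast] at h2
      rw [h2]; field_simp
    rw [h1, Real.rpow_mul ht0.le]
    change s ^ ((a q : ℤ) : ℝ) * s ^ M = _
    rw [← Real.rpow_natCast s M, ← Real.rpow_add hs0, ← Real.rpow_natCast]
    congr 1
    have h3 : (((a q + M).toNat : ℤ) : ℝ) = ((a q + M : ℤ) : ℝ) := by
      rw [Int.toNat_of_nonneg (hM q hq)]
    push_cast at h3
    rw [← h3]
  rw [Fintype.linearIndependent_iff]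
  intro c hc q₀
  have h1 : aeval ((s : ℝ) : ℂ) (∑ q : A, C (c q) * X ^ (a q + M).toNat : QB[X]) = 0 := by
    rw [map_sum]
    have h2 : (((s : ℝ) : ℂ)) ^ M * ∑ q : A, c q • ((t ^ (((q : A) : ℚ) : ℝ) : ℝ) : ℂ) = 0 := by
      rw [hc, mul_zero]
    rw [← h2, Finset.mul_sum]
    refine Finset.sum_congr rfl fun q _ => ?_
    have h3 := congrArg (fun x : ℝ => (x : ℂ)) (hpow q q.2)
    simp only [Complex.ofReal_mul, Complex.ofReal_pow] at h3
    rw [map_mul, aeval_C, map_pow, aeval_X, ← h3, Algebra.smul_def]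
    ring
  have h2 : (∑ q : A, C (c q) * X ^ (a q + M).toNat : QB[X]) = 0 := by
    apply transcendental_iff_injective.mp hsC
    rw [h1, map_zero]
  have h3 := congrArg (fun P : QB[X] => P.coeff (a q₀ + M).toNat) h2
  simp only [finsetSum_coeff, coeff_C_mul, coeff_X_pow, coeff_zero] at h3
  rw [Finset.sum_eq_single q₀] at h3
  · simpa using h3
  · intro q _ hq
    rw [if_neg, mul_zero]
    intro h4
    apply hq
    have h5 := hM q q.2
    have h6 := hM q₀ q₀.2
    have h7 : a q = a q₀ := by omega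
    apply Subtype.ext
    rw [ha q q.2, ha q₀ q₀.2, h7]
  · intro h; exact absurd (Finset.mem_univ _) h

/-- from sumsets to boxes in a group of exponents -/
theorem box_of_sumset {Γ : Type} [AddCommGroup Γ] [DecidableEq Γ] (p : Γ → Prop)
    (hp : ∀ A B : Finset Γ, (∀ a ∈ A, p a) → B.card * A.card ≤ (A + B).card + B.card * (B.card - 1))
    {r : ℕ} (α : Fin r → Γ) (hα : Function.Injective fun n : Fin r → ℕ => ∑ i, n i • α i) (N : ℕ)
    (S : Finset (Fin r → ℕ)) (hS : ∀ n ∈ S, ∀ i, n i < N) (h : ∀ n ∈ S, p (∑ i, n i • α i)) :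
    (S.card : ℝ) ≤ 2 * (Real.sqrt N + 1) ^ r := by
  classical
  let g : (Fin r → ℕ) → Γ := fun n => ∑ i, n i • α i
  have hg : Function.Injective g := hα
  let bx : ℕ → Finset (Fin r → ℕ) := fun n => Fintype.piFinset fun _ => Finset.range n
  have hbx : ∀ n, (bx n).card = n ^ r := by
    intro n
    simp [bx, Fintype.card_piFinset]
  set n := ⌊Real.sqrt N⌋₊ + 1 with hn
  have hs0 : 0 ≤ Real.sqrt N := Real.sqrt_nonneg _
  have hn1 : (n : ℝ) ≤ Real.sqrt N + 1 := by
    rw [hn]; push_cast
    have := Nat.floor_le hs0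
    linarith
  have hn2 : Real.sqrt N < n := by
    rw [hn]; push_cast
    exact Nat.lt_floor_add_one _
  have hnpos : 1 ≤ n := by omega
  have hnR : (1 : ℝ) ≤ n := by exact_mod_cast hnpos
  have hmain := hp (S.image g) ((bx n).image g)
    (by intro a ha; obtain ⟨m, hm, rfl⟩ := Finset.mem_image.mp ha; exact h m hm)
  rw [Finset.card_image_of_injective _ hg, Finset.card_image_of_injective _ hg, hbx] at hmain
  have hsum : (S.image g + (bx n).image g).card ≤ (N + n) ^ r := by
    have h1 : S.image g + (bx n).image g ⊆ (bx (N + n)).image g := by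
      intro z hz
      obtain ⟨a, ha, b, hb, rfl⟩ := Finset.mem_add.mp hz
      obtain ⟨m, hm, rfl⟩ := Finset.mem_image.mp ha
      obtain ⟨m', hm', rfl⟩ := Finset.mem_image.mp hb
      refine Finset.mem_image.mpr ⟨fun i => m i + m' i, ?_, ?_⟩
      · simp only [bx, Fintype.mem_piFinset, Finset.mem_range] at hm' ⊢
        intro i
        have := hS m hm i
        have := hm' i
        omega
      · simp only [g, add_smul, Finset.sum_add_distrib]
    calc _ ≤ ((bx (N + n)).image g).card := Finset.card_le_card h1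
      _ ≤ (bx (N + n)).card := Finset.card_image_le
      _ = _ := hbx _
  have h3 : n ^ r * S.card ≤ (N + n) ^ r + n ^ r * n ^ r :=
    hmain.trans (Nat.add_le_add hsum (Nat.mul_le_mul_left _ (Nat.sub_le _ _)))
  have h4 : (n : ℝ) ^ r * S.card ≤ ((N : ℝ) + n) ^ r + (n : ℝ) ^ r * (n : ℝ) ^ r := by
    exact_mod_cast h3
  have hN : (N : ℝ) = Real.sqrt N * Real.sqrt N := (Real.mul_self_sqrt (Nat.cast_nonneg N)).symm
  have h5 : (N : ℝ) + n ≤ n * (Real.sqrt N + 1) := by nlinarith
  have h6 : ((N : ℝ) + n) ^ r ≤ (n : ℝ) ^ r * (Real.sqrt N + 1) ^ r := by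
    rw [← mul_pow]
    exact pow_le_pow_left₀ (by positivity) h5 r
  have h7 : (n : ℝ) ^ r * (n : ℝ) ^ r ≤ (n : ℝ) ^ r * (Real.sqrt N + 1) ^ r :=
    mul_le_mul_of_nonneg_left (pow_le_pow_left₀ (by positivity) hn1 r) (by positivity)
  have h8 : (n : ℝ) ^ r * S.card ≤ (n : ℝ) ^ r * (2 * (Real.sqrt N + 1) ^ r) := by linarith
  exact le_of_mul_le_mul_left h8 (by positivity)

end Pool.Agent.K6.H30.PS
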