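import Pool.Agent.K6.H30.PS.Basic
import Pool.Agent.K6.H30.PS.Dil
import Pool.Agent.HP778.KZ5
import Pool.Agent.H340R2.LW2

/-!
# One-variable periods, products of spaces and exponentials
-/

set_option autoImplicit false

namespace Pool.Agent.K6.H30.PS

open Module Finset Polynomial
open Pool.Agent.HP778 Pool.Agent.HP778.KZ
open Pool.Agent.H301R2.SSE (QB mem_QB Lt)
open scoped Pointwise

section gen

variable {k Ω : Type} [Field k] [Field Ω] [Algebra k Ω]

theorem comb_le {F V : Submodule k Ω} {m : ℕ} (b : Basis (Fin m) k F) :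
    F * V ≤ comb (fun j => ((b j : F) : Ω)) V := by
  rw [Submodule.mul_le]
  intro x hx v hv
  refine ⟨fun j => b.repr ⟨x, hx⟩ j • v, fun j => V.smul_mem _ hv, ?_⟩
  have h1 := congrArg (fun z : F => (z : Ω)) (b.sum_repr ⟨x, hx⟩)
  simp only [Submodule.coe_sum, Submodule.coe_smul] at h1
  have h2 : x * v = (∑ j, (b.repr ⟨x, hx⟩) j • ((b j : F) : Ω)) * v := by rw [h1]
  rw [h2, Finset.sum_mul]
  refine Finset.sum_congr rfl fun j _ => ?_
  change _ = ((b j : F) : Ω) * (b.repr ⟨x, hx⟩ j • v)
  rw [smul_mul_assoc, mul_smul_comm]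

/-- polynomials in `t` and `F V` -/
theorem poly_bound {V : Submodule k Ω} (hV : Hyper V) {t : Ω} (ht : Transcendental k t)
    (F : Submodule k Ω) [FiniteDimensional k F] : ∃ L : ℕ, ∀ N n : ℕ, 1 ≤ n →
      n * finrank k (PV k t (N + 1) ⊓ F * V : Submodule k Ω) ≤
        (N + 1 + L * n) + (n * finrank k F) * (n * finrank k F - 1) := by
  classical
  let b := Module.finBasis k F
  have hb : LinearIndependent k (fun j => ((b j : F) : Ω)) :=
    b.linearIndependent.map' F.subtype F.ker_subtype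
  obtain ⟨L, hL, hind⟩ := exists_dilation ht _ hb
  refine ⟨L, fun N n hn => ?_⟩
  have h := prod_space hV (fun i : Fin n => t ^ (L * (i : ℕ))) (fun j => ((b j : F) : Ω)) (hind n)
    (PV k t (N + 1) ⊓ F * V) (PV k t (N + 1 + L * n)) ?_ ?_
  · rwa [finrank_PV ht] at h
  · intro w hw
    exact comb_le b hw.2
  · intro w hw i
    have h1 : t ^ (L * (i : ℕ)) ∈ PV k t (L * n) := by
      rw [show t ^ (L * (i : ℕ)) = aeval t (X ^ (L * (i : ℕ)) : k[X]) by
        rw [map_pow, aeval_X]]
      apply aeval_mem_PV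
      rw [natDegree_X_pow]
      exact Nat.mul_lt_mul_of_pos_left i.2 (by omega)
    exact PV_mul (by omega) h1 hw.1

end gen

theorem hyper_periods1 : Hyper (k := QB) (Ω := ℂ) periods1 :=
  Hyper.mono hyper_Lt periods1_le

/-- the polynomials in `t` of degree at most `N` -/
noncomputable def polys (t : ℂ) (N : ℕ) : Submodule (algebraicClosure ℚ ℂ) ℂ :=
  Submodule.span (algebraicClosure ℚ ℂ) {z : ℂ | ∃ j ≤ N, z = t ^ j}

theorem polys_le (t : ℂ) (N : ℕ) : polys t N ≤ PV QB t (N + 1) := by
  unfold polys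
  rw [Submodule.span_le]
  rintro z ⟨j, hj, rfl⟩
  have h := aeval_mem_PV (k := QB) (t := t) (n := N + 1) (Q := (X ^ j : QB[X]))
    (by rw [natDegree_X_pow]; omega)
  rwa [map_pow, aeval_X] at h

theorem polys_inf_bound {t : ℂ} (ht : Transcendental ℚ t)
    (F : Submodule (algebraicClosure ℚ ℂ) ℂ) [FiniteDimensional (algebraicClosure ℚ ℂ) F] :
    ∃ C : ℕ, ∀ N : ℕ, (finrank (algebraicClosure ℚ ℂ)
      (polys t N ⊓ F * periods1 : Submodule (algebraicClosure ℚ ℂ) ℂ) : ℝ) ≤
        2 * finrank (algebraicClosure ℚ ℂ) F * Real.sqrt N + C := by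
  obtain ⟨L, hL⟩ := poly_bound hyper_periods1 (tr_QB ht) F
  set f := finrank (algebraicClosure ℚ ℂ) F with hf
  refine ⟨L + f * f + 2, fun N => ?_⟩
  set w := finrank (algebraicClosure ℚ ℂ)
      (polys t N ⊓ F * periods1 : Submodule (algebraicClosure ℚ ℂ) ℂ) with hw
  have hwN : w ≤ finrank (algebraicClosure ℚ ℂ)
      (PV QB t (N + 1) ⊓ F * periods1 : Submodule (algebraicClosure ℚ ℂ) ℂ) :=
    Submodule.finrank_mono (inf_le_inf_right _ (polys_le t N))
  -- the case `F = 0`
  rcases Nat.eq_zero_or_pos f with hf0 | hf0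
  · have h1 := hL N (N + 1) (by omega)
    rw [hf0] at h1
    have h2 : (N + 1) * w ≤ (N + 1) * (1 + L) := by
      calc (N + 1) * w ≤ (N + 1) * _ := Nat.mul_le_mul_left _ hwN
        _ ≤ _ := h1
        _ = (N + 1) * (1 + L) := by ring_nf
    have h3 : w ≤ 1 + L := Nat.le_of_mul_le_mul_left h2 (by omega)
    have h4 : (w : ℝ) ≤ 1 + L := by exact_mod_cast h3
    rw [hf0]
    push_cast
    nlinarith
  · -- `n` about `√N / f`
    have hs0 : 0 ≤ Real.sqrt N := Real.sqrt_nonneg _
    have hfR : (1 : ℝ) ≤ f := by exact_mod_cast hf0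
    set n := ⌊Real.sqrt N / f⌋₊ + 1 with hn
    have hn1 : (n : ℝ) ≤ Real.sqrt N / f + 1 := by
      rw [hn]; push_cast
      have := Nat.floor_le (div_nonneg hs0 (by linarith : (0 : ℝ) ≤ f))
      linarith
    have hn2 : Real.sqrt N / f < n := by
      rw [hn]; push_cast
      exact Nat.lt_floor_add_one _
    have hnpos : 1 ≤ n := by omega
    have hnR : (1 : ℝ) ≤ n := by exact_mod_cast hnpos
    have h1 := hL N n hnpos
    have h2 : n * w ≤ (N + 1 + L * n) + (n * f) * (n * f - 1) :=
      (Nat.mul_le_mul_left _ hwN).trans h1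
    have h3 : n * w ≤ (N + 1 + L * n) + (n * f) * (n * f) :=
      h2.trans (Nat.add_le_add_left (Nat.mul_le_mul_left _ (Nat.sub_le _ _)) _)
    have h4 : (n : ℝ) * w ≤ (N + 1 + L * n) + (n * f) * (n * f) := by exact_mod_cast h3
    have hN : (N : ℝ) = Real.sqrt N * Real.sqrt N := (Real.mul_self_sqrt (Nat.cast_nonneg N)).symm
    have h5 : (N : ℝ) ≤ n * (f * Real.sqrt N) := by
      rw [div_lt_iff₀ (by linarith)] at hn2
      nlinarith
    have h6 : (n : ℝ) * f ≤ Real.sqrt N + f := by
      have := mul_le_mul_of_nonneg_right hn1 (by linarith : (0 : ℝ) ≤ f)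
      rwa [add_mul, div_mul_cancel₀ _ (by linarith : (f : ℝ) ≠ 0), one_mul] at this
    have h7 : (n : ℝ) * w ≤ n * (2 * f * Real.sqrt N + (L + f * f + 2)) := by
      have h8 : ((n : ℝ) * f) * (n * f) ≤ n * (f * (Real.sqrt N + f)) := by
        have := mul_le_mul_of_nonneg_left h6 (by positivity : (0 : ℝ) ≤ (n : ℝ) * f)
        linarith
      nlinarith
    have h9 := le_of_mul_le_mul_left h7 (by linarith)
    push_cast
    linarith

/-- the exponentials of distinct algebraic numbers, times `y ≠ 0`, are independent -/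
theorem exp_indep {y : ℂ} (hy : y ≠ 0) (A : Finset ℂ) (hA : ∀ α ∈ A, IsAlgebraic ℚ α) :
    LinearIndependent QB (fun α : A => y * Complex.exp α) := by
  rw [Fintype.linearIndependent_iff]
  intro c hc α
  have h := Pool.Agent.H340R2.LW.lindemann_weierstrass (Finset.univ : Finset A)
    (fun α => (α : ℂ)) (fun α => ((c α : QB) : ℂ)) (fun α _ => hA α α.2)
    (fun α _ => mem_QB.mp (c α).2) (fun α _ β _ h => Subtype.ext h) ?_ α (Finset.mem_univ _)
  · exact_mod_cast h
  · have h1 : y * ∑ α : A, ((c α : QB) : ℂ) * Complex.exp α = 0 := by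
      rw [← hc, Finset.mul_sum]
      refine Finset.sum_congr rfl fun α _ => ?_
      rw [Algebra.smul_def]
      change y * (((c α : QB) : ℂ) * Complex.exp α) = ((c α : QB) : ℂ) * (y * Complex.exp α)
      ring
    exact (mul_eq_zero.mp h1).resolve_left hy

theorem sumset_bound {y : ℂ} (hy : y ≠ 0) (A B : Finset ℂ) (hA : ∀ α ∈ A, IsAlgebraic ℚ α)
    (hB : ∀ β ∈ B, IsAlgebraic ℚ β) (h : ∀ α ∈ A, y * Complex.exp α ∈ periods1) :
    B.card * A.card ≤ (A + B).card + B.card * (B.card - 1) := by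
  classical
  let W : Submodule QB ℂ := Submodule.span QB (Set.range fun α : A => y * Complex.exp α)
  let C : Submodule QB ℂ := Submodule.span QB
    (((A + B).image fun γ => y * Complex.exp γ : Finset ℂ) : Set ℂ)
  have : FiniteDimensional QB W := FiniteDimensional.span_of_finite _ (Set.finite_range _)
  have : FiniteDimensional QB C := FiniteDimensional.span_of_finite _ (Finset.finite_toSet _)
  have hW : finrank QB W = A.card := by
    rw [finrank_span_eq_card (exp_indep hy A hA), Fintype.card_coe]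
  have hC : finrank QB C ≤ (A + B).card :=
    (finrank_span_finset_le_card _).trans Finset.card_image_le
  have hBind := exp_indep one_ne_zero B hB
  let e := B.equivFin
  have hprod := prod_space (k := QB) hyper_periods1 (fun i : Fin B.card => Complex.exp (e.symm i))
    (fun _ : Fin 1 => (1 : ℂ)) ?_ W C ?_ ?_
  · rw [hW, mul_one] at hprod
    omega
  · have h1 : LinearIndependent QB (fun p : Fin B.card × Fin 1 =>
        (1 : ℂ) * Complex.exp (e.symm p.1)) :=
      hBind.comp (fun p : Fin B.card × Fin 1 => e.symm p.1) (by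
        intro p q hpq
        have := e.symm.injective hpq
        exact Prod.ext this (Subsingleton.elim _ _))
    have h2 : (fun p : Fin B.card × Fin 1 => Complex.exp (e.symm p.1) * (1 : ℂ)) =
        fun p : Fin B.card × Fin 1 => (1 : ℂ) * Complex.exp (e.symm p.1) := by
      funext p
      rw [mul_comm]
    rw [h2]
    exact h1
  · intro w hw
    refine ⟨fun _ => w, fun _ => ?_, by simp⟩
    refine (Submodule.span_le.mpr ?_ : W ≤ periods1) hw
    rintro _ ⟨α, rfl⟩
    exact h α α.2
  · intro w hw i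
    have : W ≤ C.comap (LinearMap.mulLeft QB (Complex.exp (e.symm i))) := by
      rw [Submodule.span_le]
      rintro _ ⟨α, rfl⟩
      change Complex.exp (e.symm i) * (y * Complex.exp α) ∈ C
      apply Submodule.subset_span
      rw [Finset.mem_coe, Finset.mem_image]
      refine ⟨α + e.symm i, Finset.add_mem_add α.2 (e.symm i).2, ?_⟩
      rw [Complex.exp_add]; ring
    exact this hw

/-- boxes of exponents -/
theorem box_bound {y : ℂ} (hy : y ≠ 0) {r : ℕ} (α : Fin r → ℂ) (hα : ∀ i, IsAlgebraic ℚ (α i))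
    (hind : LinearIndependent ℚ α) (N : ℕ) (S : Finset (Fin r → ℕ)) (hS : ∀ n ∈ S, ∀ i, n i < N)
    (h : ∀ n ∈ S, y * Complex.exp (∑ i, (n i : ℂ) * α i) ∈ periods1) :
    (S.card : ℝ) ≤ 2 * (Real.sqrt N + 1) ^ r := by
  classical
  let g : (Fin r → ℕ) → ℂ := fun n => ∑ i, (n i : ℂ) * α i
  have hg : Function.Injective g := by
    intro a b hab
    have h1 : ∑ i, ((a i : ℚ) - b i) • α i = 0 := by
      have h2 : ∑ i, ((a i : ℂ) - b i) * α i = 0 := by
        simp only [sub_mul, Finset.sum_sub_distrib]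
        exact sub_eq_zero.mpr hab
      rw [← h2]
      refine Finset.sum_congr rfl fun i _ => ?_
      rw [Algebra.smul_def, map_sub]
      simp
    have h2 := Fintype.linearIndependent_iff.mp hind _ h1
    funext i
    have h3 := h2 i
    have h4 : (a i : ℚ) = b i := by linarith
    exact_mod_cast h4
  have hgalg : ∀ n, IsAlgebraic ℚ (g n) := by
    intro n
    exact Finset.sum_induction _ (fun z => IsAlgebraic ℚ z) (fun a b ha hb => ha.add hb)
      isAlgebraic_zero (fun i _ => (isAlgebraic_natCast (n i)).mul (hα i))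
  -- the boxes
  let bx : ℕ → Finset (Fin r → ℕ) := fun n => Fintype.piFinset fun _ => Finset.range n
  have hbx : ∀ n, (bx n).card = n ^ r := by
    intro n
    simp [bx, Fintype.card_piFinset]
  set n := ⌊Real.sqrt N⌋₊ + 1 with hn
  have hs0 : 0 ≤ Real.sqrt N := Real.sqrt_nonneg _
  have hn1 : (n : ℝ) ≤ Real.sqrt N + 1 := by
    rw [hn]; push_cast
    have := Nat.floor_le hs0
    linarith
  have hn2 : Real.sqrt N < n := by
    rw [hn]; push_cast
    exact Nat.lt_floor_add_one _
  have hnpos : 1 ≤ n := by omega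
  have hnR : (1 : ℝ) ≤ n := by exact_mod_cast hnpos
  have hmain := sumset_bound hy (S.image g) ((bx n).image g)
    (by intro a ha; obtain ⟨m, _, rfl⟩ := Finset.mem_image.mp ha; exact hgalg m)
    (by intro a ha; obtain ⟨m, _, rfl⟩ := Finset.mem_image.mp ha; exact hgalg m)
    (by intro a ha; obtain ⟨m, hm, rfl⟩ := Finset.mem_image.mp ha; exact h m hm)
  rw [Finset.card_image_of_injective _ hg, Finset.card_image_of_injective _ hg, hbx] at hmain
  have hsum : (S.image g + (bx n).image g).card ≤ (N + n) ^ r := by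
    have h1 : S.image g + (bx n).image g ⊆ (bx (N + n)).image g := by
      intro z hz
      obtain ⟨a, ha, b, hb, rfl⟩ := Finset.mem_add.mp hz
      obtain ⟨m, hm, rfl⟩ := Finset.mem_image.mp ha
      obtain ⟨m', hm', rfl⟩ := Finset.mem_image.mp hb
      refine Finset.mem_image.mpr ⟨fun i => m i + m' i, ?_, ?_⟩
      · simp only [bx, Fintype.mem_piFinset, Finset.mem_range] at hm' ⊢
        intro i
        have := hS m hm i
        have := hm' i
        omega
      · simp only [g, Nat.cast_add, add_mul, Finset.sum_add_distrib]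
    calc _ ≤ ((bx (N + n)).image g).card := Finset.card_le_card h1
      _ ≤ (bx (N + n)).card := Finset.card_image_le
      _ = _ := hbx _
  have h3 : n ^ r * S.card ≤ (N + n) ^ r + n ^ r * n ^ r :=
    hmain.trans (Nat.add_le_add hsum (Nat.mul_le_mul_left _ (Nat.sub_le _ _)))
  have h4 : (n : ℝ) ^ r * S.card ≤ ((N : ℝ) + n) ^ r + (n : ℝ) ^ r * (n : ℝ) ^ r := by
    exact_mod_cast h3
  have hN : (N : ℝ) = Real.sqrt N * Real.sqrt N := (Real.mul_self_sqrt (Nat.cast_nonneg N)).symm
  have h5 : (N : ℝ) + n ≤ n * (Real.sqrt N + 1) := by nlinarith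
  have h6 : ((N : ℝ) + n) ^ r ≤ (n : ℝ) ^ r * (Real.sqrt N + 1) ^ r := by
    rw [← mul_pow]
    exact pow_le_pow_left₀ (by positivity) h5 r
  have h7 : (n : ℝ) ^ r * (n : ℝ) ^ r ≤ (n : ℝ) ^ r * (Real.sqrt N + 1) ^ r :=
    mul_le_mul_of_nonneg_left (pow_le_pow_left₀ (by positivity) hn1 r) (by positivity)
  have h8 : (n : ℝ) ^ r * S.card ≤ (n : ℝ) ^ r * (2 * (Real.sqrt N + 1) ^ r) := by linarith
  exact le_of_mul_le_mul_left h8 (by positivity)

end Pool.Agent.K6.H30.PS
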