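import Pool.Agent.K6.H30.PS.Gen

/-!
# Powers which are products of powers of algebraic numbers
-/

set_option autoImplicit false

namespace Pool.Agent.K6.H30.PS

open Module Finset Polynomial
open Pool.Agent.HP778 Pool.Agent.HP778.KZ
open Pool.Agent.H301R2.SSE (QB mem_QB Lt Lt_mul Lt_alg Lt_log Lt_one)
open scoped Pointwise

theorem mem_of_expF {F : Submodule QB ℂ} (hF : (1 : ℂ) ∈ F) {w w' : ℂ} (hw' : w' ∈ F * Lt)
    (h : Complex.exp w = Complex.exp w') : w ∈ F * Lt := by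
  obtain ⟨n, hn⟩ := Complex.exp_eq_exp_iff_exists_int.mp h
  rw [hn]
  refine (F * Lt).add_mem hw' ?_
  rw [← one_mul ((n : ℂ) * _)]
  apply Submodule.mul_mem_mul hF
  apply Lt_log
  rw [Complex.exp_int_mul_two_pi_mul_I]
  exact isAlgebraic_one

theorem sumset_exp {y : ℂ} (hy : y ≠ 0) (A B : Finset ℂ) (hA : ∀ α ∈ A, IsAlgebraic ℚ α)
    (hB : ∀ β ∈ B, IsAlgebraic ℚ β) (h : ∀ α ∈ A, y * Complex.exp α ∈ Lt) :
    B.card * A.card ≤ (A + B).card + B.card * (B.card - 1) := by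
  refine sumset_gen (k := QB) hyper_Lt (fun α : ℂ => Complex.exp α)
    (fun a b => Complex.exp_add a b) y hy A B ?_ ?_ h
  · have := exp_indep one_ne_zero A hA
    simpa using this
  · have := exp_indep one_ne_zero B hB
    simpa using this

theorem sumset_rpow {t : ℝ} (ht0 : 0 < t) (ht : Transcendental ℚ t) {y : ℂ} (hy : y ≠ 0)
    (A B : Finset ℚ) (h : ∀ q ∈ A, y * ((t ^ ((q : ℚ) : ℝ) : ℝ) : ℂ) ∈ Lt) :
    B.card * A.card ≤ (A + B).card + B.card * (B.card - 1) := by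
  refine sumset_gen (k := QB) hyper_Lt (fun q : ℚ => ((t ^ ((q : ℚ) : ℝ) : ℝ) : ℂ))
    (fun a b => ?_) y hy A B (rpow_indep ht0 ht A) (rpow_indep ht0 ht B) h
  rw [Rat.cast_add, Real.rpow_add ht0, Complex.ofReal_mul]

theorem box_exp {y : ℂ} (hy : y ≠ 0) {r : ℕ} (α : Fin r → ℂ) (hα : ∀ i, IsAlgebraic ℚ (α i))
    (hind : LinearIndependent ℚ α) (N : ℕ) (S : Finset (Fin r → ℕ)) (hS : ∀ n ∈ S, ∀ i, n i < N)
    (h : ∀ n ∈ S, y * Complex.exp (∑ i, (n i : ℂ) * α i) ∈ Lt) :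
    (S.card : ℝ) ≤ 2 * (Real.sqrt N + 1) ^ r := by
  classical
  -- the group of algebraic numbers
  have hinj : Function.Injective fun n : Fin r → ℕ =>
      ∑ i, n i • (⟨α i, mem_QB.mpr (hα i)⟩ : QB) := by
    intro a b hab
    have h0 : ∑ i, (a i : ℂ) * α i = ∑ i, (b i : ℂ) * α i := by
      have := congrArg (fun z : QB => (z : ℂ)) hab
      simp only [AddSubmonoidClass.coe_finsetSum] at this
      simpa [nsmul_eq_mul] using this
    have h1 : ∑ i, ((a i : ℚ) - b i) • α i = 0 := by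
      have h2 : ∑ i, ((a i : ℂ) - b i) * α i = 0 := by
        simp only [sub_mul, Finset.sum_sub_distrib]
        exact sub_eq_zero.mpr h0
      rw [← h2]
      refine Finset.sum_congr rfl fun i _ => ?_
      rw [Algebra.smul_def, map_sub]
      simp
    have h2 := Fintype.linearIndependent_iff.mp hind _ h1
    funext i
    have h3 := h2 i
    have h4 : (a i : ℚ) = b i := by linarith
    exact_mod_cast h4
  refine box_of_sumset (Γ := QB) (fun a => y * Complex.exp (a : ℂ) ∈ Lt) ?_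
    (fun i => (⟨α i, mem_QB.mpr (hα i)⟩ : QB)) hinj N S hS ?_
  · intro A B hA
    have h1 := sumset_exp hy (A.image fun a : QB => (a : ℂ)) (B.image fun a : QB => (a : ℂ))
      (by intro a ha; obtain ⟨c, _, rfl⟩ := Finset.mem_image.mp ha; exact mem_QB.mp c.2)
      (by intro a ha; obtain ⟨c, _, rfl⟩ := Finset.mem_image.mp ha; exact mem_QB.mp c.2)
      (by intro a ha; obtain ⟨c, hc, rfl⟩ := Finset.mem_image.mp ha; exact hA c hc)
    have hci : Function.Injective (fun a : QB => (a : ℂ)) := Subtype.val_injective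
    have h2 : (A.image fun a : QB => (a : ℂ)) + (B.image fun a : QB => (a : ℂ)) =
        (A + B).image fun a : QB => (a : ℂ) := by
      ext z
      simp only [Finset.mem_add, Finset.mem_image]
      constructor
      · rintro ⟨_, ⟨a, ha, rfl⟩, _, ⟨b, hb, rfl⟩, rfl⟩
        exact ⟨a + b, ⟨a, ha, b, hb, rfl⟩, rfl⟩
      · rintro ⟨_, ⟨a, ha, b, hb, rfl⟩, rfl⟩
        exact ⟨a, ⟨a, ha, rfl⟩, b, ⟨b, hb, rfl⟩, rfl⟩
    rw [h2, Finset.card_image_of_injective _ hci, Finset.card_image_of_injective _ hci,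
      Finset.card_image_of_injective _ hci] at h1
    exact h1
  · intro n hn
    have h1 : ((∑ i, n i • (⟨α i, mem_QB.mpr (hα i)⟩ : QB) : QB) : ℂ) =
        ∑ i, (n i : ℂ) * α i := by
      simp only [AddSubmonoidClass.coe_finsetSum]
      simp [nsmul_eq_mul]
    rw [h1]
    exact h n hn

theorem box_rpow {t : ℝ} (ht0 : 0 < t) (ht : Transcendental ℚ t) {y : ℂ} (hy : y ≠ 0)
    {q : ℚ} (hq : q ≠ 0) (N : ℕ) (S : Finset ℕ) (hS : ∀ n ∈ S, n < N)
    (h : ∀ n ∈ S, y * ((t ^ (((n * q : ℚ)) : ℝ) : ℝ) : ℂ) ∈ Lt) :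
    (S.card : ℝ) ≤ 2 * (Real.sqrt N + 1) := by
  classical
  have h1 := box_of_sumset (Γ := ℚ) (fun a => y * ((t ^ ((a : ℚ) : ℝ) : ℝ) : ℂ) ∈ Lt)
    (fun A B hA => sumset_rpow ht0 ht hy A B hA) (r := 1) (fun _ => q) (by
      intro a b hab
      funext i
      rw [Subsingleton.elim i 0]
      simp only [Finset.univ_unique, Fin.default_eq_zero, Finset.sum_singleton, nsmul_eq_mul] at hab
      exact_mod_cast mul_right_cancel₀ hq hab) N (S.image fun n => fun _ : Fin 1 => n)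
    (by
      intro n hn i
      obtain ⟨m, hm, rfl⟩ := Finset.mem_image.mp hn
      exact hS m hm)
    (by
      intro n hn
      obtain ⟨m, hm, rfl⟩ := Finset.mem_image.mp hn
      have := h m hm
      simpa [nsmul_eq_mul] using this)
  rw [Finset.card_image_of_injective _ (fun a b hab => congrFun hab 0), pow_one] at h1
  exact h1

end Pool.Agent.K6.H30.PS
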